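import Pool.Agent.MP_b00c97_gt.Ind.Scale

/-!
# MP_b00c97_gt: an `o`-bounded SIN group in which player I wins has a scale
-/

set_option autoImplicit false

open Topology Filter Set Pointwise

namespace Pool.Agent.MP_b00c97_gt.Ind

universe u

variable {G : Type u} [Group G] [TopologicalSpace G]

/-- An `o`-bounded group is covered by countably many translates of every neighbourhood. -/
theorem exists_enum
    (hO : ∀ U : ℕ → Set G, (∀ n, U n ∈ 𝓝 (1 : G)) →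
      ∃ F : ℕ → Finset G, (univ : Set G) ⊆ ⋃ n, (F n : Set G) * U n)
    (V : Set G) (hV : V ∈ 𝓝 (1 : G)) : ∃ e : ℕ → G, ∀ g, ∃ i, (e i)⁻¹ * g ∈ V := by
  obtain ⟨F, hF⟩ := hO (fun _ => V) (fun _ => hV)
  have hc : (⋃ n, (F n : Set G)).Countable := countable_iUnion fun n => (F n).countable_toSet
  have key : ∀ g, ∃ x ∈ (⋃ n, (F n : Set G)), x⁻¹ * g ∈ V := by
    intro g
    obtain ⟨n, x, hx, y, hy, rfl⟩ := mem_iUnion.1 (hF (mem_univ g))
    exact ⟨x, mem_iUnion.2 ⟨n, hx⟩, by simpa using hy⟩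
  obtain ⟨x, hx, -⟩ := key 1
  obtain ⟨e, he⟩ := hc.exists_eq_range ⟨x, hx⟩
  refine ⟨e, fun g => ?_⟩
  obtain ⟨x, hx, hxg⟩ := key g
  rw [he] at hx
  obtain ⟨i, rfl⟩ := hx
  exact ⟨i, hxg⟩

variable [IsTopologicalGroup G]

/-- The game against a winning strategy of player I, played with coded moves. -/
theorem exists_play
    (hcov : ∀ V : Set G, V ∈ 𝓝 (1 : G) → ∃ e : ℕ → G, ∀ g, ∃ i, (e i)⁻¹ * g ∈ V)
    (hW : ∃ σ : List (Finset G) → Set G, (∀ l, σ l ∈ 𝓝 (1 : G)) ∧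
      ∀ F : ℕ → Finset G, ¬ (univ : Set G) ⊆ ⋃ n, (F n : Set G) * σ ((List.range n).map F)) :
    ∃ (small : List ℕ → Set G) (K : List ℕ → Finset G → ℕ), (∀ t, small t ∈ 𝓝 (1 : G)) ∧
      ∀ (E : ℕ → Finset G) (t : ℕ → List ℕ), t 0 = [] → (∀ n, t (n + 1) = K (t n) (E n) :: t n) →
        ∃ g : G, ∀ n, ∀ x ∈ E n, x⁻¹ * g ∉ small (t n) := by
  classical
  obtain ⟨σ, hσ, hσw⟩ := hW
  have h1 : ∀ U : Set G, ∃ V : Set G, U ∈ 𝓝 (1 : G) → V ∈ 𝓝 (1 : G) ∧
      ∀ a ∈ V, ∀ b ∈ V, a * b ∈ U := by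
    intro U
    by_cases hU : U ∈ 𝓝 (1 : G)
    · obtain ⟨V, hV, hV'⟩ := exists_nhds_one_split hU
      exact ⟨V, fun _ => ⟨hV, hV'⟩⟩
    · exact ⟨univ, fun h => absurd h hU⟩
  choose V hV using h1
  have h2 : ∀ U : Set G, ∃ e : ℕ → G, U ∈ 𝓝 (1 : G) → ∀ g, ∃ i, (e i)⁻¹ * g ∈ V U := by
    intro U
    by_cases hU : U ∈ 𝓝 (1 : G)
    · obtain ⟨e, he⟩ := hcov (V U) (hV U hU).1
      exact ⟨e, fun _ => he⟩
    · exact ⟨fun _ => 1, fun h => absurd h hU⟩
  choose e he using h2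
  have h3 : ∀ (U : Set G) (g : G), ∃ i, U ∈ 𝓝 (1 : G) → (e U i)⁻¹ * g ∈ V U := by
    intro U g
    by_cases hU : U ∈ 𝓝 (1 : G)
    · obtain ⟨i, hi⟩ := he U hU g
      exact ⟨i, fun _ => hi⟩
    · exact ⟨0, fun h => absurd h hU⟩
  choose ix hix using h3
  let move : Set G → ℕ → Finset G := fun U k => (Finset.range k).image (e U)
  let hist : List ℕ → List (Finset G) := fun t =>
    List.rec [] (fun k _ r => r ++ [move (σ r) k]) t
  have hist0 : hist [] = [] := rfl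
  have hist1 : ∀ k t, hist (k :: t) = hist t ++ [move (σ (hist t)) k] := fun k t => rfl
  refine ⟨fun t => V (σ (hist t)), fun t E => E.sup (fun x => ix (σ (hist t)) x + 1),
    fun t => (hV _ (hσ _)).1, ?_⟩
  intro E t ht0 ht
  let F : ℕ → Finset G := fun n =>
    move (σ (hist (t n))) ((E n).sup (fun x => ix (σ (hist (t n))) x + 1))
  have hF : ∀ n, (List.range n).map F = hist (t n) := by
    intro n
    induction n with
    | zero => rw [ht0, hist0]; rfl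
    | succ n ih =>
      rw [List.range_succ, List.map_append, ih, ht n, hist1]
      rfl
  obtain ⟨g, -, hg⟩ := not_subset.1 (hσw F)
  refine ⟨g, fun n x hx hxg => hg (mem_iUnion.2 ⟨n, ?_⟩)⟩
  rw [hF n]
  have h4 := hix (σ (hist (t n))) x (hσ _)
  have h5 : (e (σ (hist (t n))) (ix (σ (hist (t n))) x))⁻¹ * g ∈ σ (hist (t n)) := by
    have := (hV _ (hσ (hist (t n)))).2 _ h4 _ hxg
    simpa [mul_assoc] using this
  refine Set.mem_mul.2 ⟨e (σ (hist (t n))) (ix (σ (hist (t n))) x), ?_, _, h5, by group⟩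
  simp only [F, move, Finset.coe_image, Finset.coe_range]
  refine ⟨_, ?_, rfl⟩
  have : ix (σ (hist (t n))) x + 1 ≤ (E n).sup (fun x => ix (σ (hist (t n))) x + 1) :=
    Finset.le_sup (f := fun x => ix (σ (hist (t n))) x + 1) hx
  exact this

/-- A decreasing sequence of symmetric invariant neighbourhoods below given ones. -/
theorem exists_nbhds
    (hS : ∀ U ∈ 𝓝 (1 : G), ∃ V ∈ 𝓝 (1 : G), V ⊆ U ∧ ∀ g : G, ∀ v ∈ V, g * v * g⁻¹ ∈ V)
    (W : ℕ → Set G) (hW : ∀ n, W n ∈ 𝓝 (1 : G)) :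
    ∃ U : ℕ → Set G, (∀ n, U n ∈ 𝓝 (1 : G)) ∧ (∀ n, U n ⊆ W n) ∧ (∀ n, ∀ x ∈ U n, x⁻¹ ∈ U n) ∧
      (∀ n, ∀ x ∈ U (n + 1), ∀ y ∈ U (n + 1), x * y ∈ U n) ∧
      (∀ n, ∀ g : G, ∀ v ∈ U n, g * v * g⁻¹ ∈ U n) := by
  classical
  have hstep : ∀ (n : ℕ) (U : Set G), ∃ V : Set G, U ∈ 𝓝 (1 : G) → V ∈ 𝓝 (1 : G) ∧ V ⊆ W n ∧
      (∀ x ∈ V, x⁻¹ ∈ V) ∧ (∀ x ∈ V, ∀ y ∈ V, x * y ∈ U) ∧
      (∀ g : G, ∀ v ∈ V, g * v * g⁻¹ ∈ V) := by
    intro n U
    by_cases hU : U ∈ 𝓝 (1 : G)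
    · obtain ⟨V₁, hV₁, hV₁'⟩ := exists_nhds_one_split hU
      obtain ⟨V₂, hV₂, hV₂s, hV₂i⟩ := hS _ (inter_mem hV₁ (hW n))
      refine ⟨V₂ ∩ V₂⁻¹, fun _ => ⟨inter_mem hV₂ (inv_mem_nhds_one G hV₂), fun x hx => (hV₂s hx.1).2,
        fun x hx => ⟨hx.2, by simpa using hx.1⟩,
        fun x hx y hy => hV₁' x (hV₂s hx.1).1 y (hV₂s hy.1).1, fun g v hv => ⟨hV₂i g v hv.1, ?_⟩⟩⟩
      have := hV₂i g v⁻¹ hv.2
      rw [Set.mem_inv]
      convert this using 1
      group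
    · exact ⟨univ, fun h => absurd h hU⟩
  choose next hnext using hstep
  let U : ℕ → Set G := fun n => Nat.rec (next 0 univ) (fun n U => next (n + 1) U) n
  have hU1 : ∀ n, U (n + 1) = next (n + 1) (U n) := fun n => rfl
  have hU0 : U 0 = next 0 univ := rfl
  have hmem : ∀ n, U n ∈ 𝓝 (1 : G) := by
    intro n
    induction n with
    | zero => exact (hnext 0 univ univ_mem).1
    | succ n ih => exact (hnext (n + 1) (U n) ih).1
  have hall : ∀ n, U n ⊆ W n ∧ (∀ x ∈ U n, x⁻¹ ∈ U n) ∧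
      (∀ g : G, ∀ v ∈ U n, g * v * g⁻¹ ∈ U n) := by
    intro n
    cases n with
    | zero =>
      have := hnext 0 univ univ_mem
      exact ⟨this.2.1, this.2.2.1, this.2.2.2.2⟩
    | succ n =>
      have := hnext (n + 1) (U n) (hmem n)
      exact ⟨this.2.1, this.2.2.1, this.2.2.2.2⟩
  exact ⟨U, hmem, fun n => (hall n).1, fun n => (hall n).2.1,
    fun n => (hnext (n + 1) (U n) (hmem n)).2.2.2.1, fun n => (hall n).2.2⟩

omit [IsTopologicalGroup G] [TopologicalSpace G] in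
/-- The relation `g ∈ E l * U m`. -/
theorem exists_finsets {U : ℕ → Set G} (hcov : ∀ m, ∃ e : ℕ → G, ∀ g, ∃ i, (e i)⁻¹ * g ∈ U m) :
    ∃ E : ℕ → Finset G, Monotone E ∧ ∀ g m, ∃ l, ∃ x ∈ E l, x⁻¹ * g ∈ U m := by
  classical
  choose e he using hcov
  refine ⟨fun l => (Finset.range (l + 1) ×ˢ Finset.range (l + 1)).image (fun q => e q.1 q.2),
    ?_, fun g m => ?_⟩
  · intro a b hab
    apply Finset.image_subset_image
    apply Finset.product_subset_product <;> simpa using hab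
  · obtain ⟨i, hi⟩ := he m g
    refine ⟨max m i, e m i, Finset.mem_image.2 ⟨(m, i), ?_, rfl⟩, hi⟩
    simp

/-- **Scales from games.** -/
theorem exists_scale
    (hS : ∀ U ∈ 𝓝 (1 : G), ∃ V ∈ 𝓝 (1 : G), V ⊆ U ∧ ∀ g : G, ∀ v ∈ V, g * v * g⁻¹ ∈ V)
    (hO : ∀ U : ℕ → Set G, (∀ n, U n ∈ 𝓝 (1 : G)) →
      ∃ F : ℕ → Finset G, (univ : Set G) ⊆ ⋃ n, (F n : Set G) * U n)
    (hW : ∃ σ : List (Finset G) → Set G, (∀ l, σ l ∈ 𝓝 (1 : G)) ∧
      ∀ F : ℕ → Finset G, ¬ (univ : Set G) ⊆ ⋃ n, (F n : Set G) * σ ((List.range n).map F)) :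
    ∃ F : G → ℕ → ℕ, Scale G F := by
  classical
  obtain ⟨small, K, hsmall, hplay⟩ := exists_play (exists_enum hO) hW
  obtain ⟨c, hc⟩ := exists_surjective_nat (List ℕ)
  obtain ⟨U, hU, hUs, hUi, hUm, hUc⟩ := exists_nbhds hS (fun n => small (c n)) (fun n => hsmall _)
  obtain ⟨E, hE, hEU⟩ := exists_finsets (fun m => exists_enum hO (U m) (hU m))
  have hUanti : ∀ m n, m ≤ n → U n ⊆ U m := by
    have : Antitone U := by
      apply antitone_nat_of_succ_le
      intro n x hx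
      have := hUm n x hx 1 (mem_of_mem_nhds (hU (n + 1)))
      simpa using this
    exact fun m n h => this h
  -- the basic relation
  let R : G → ℕ → ℕ → Prop := fun g l m => ∃ x ∈ E l, x⁻¹ * g ∈ U m
  have hRm : ∀ {g l l' m m'}, R g l m → l ≤ l' → m' ≤ m → R g l' m' := by
    rintro g l l' m m' ⟨x, hx, hxg⟩ hl hm
    exact ⟨x, hE hl hx, hUanti _ _ hm hxg⟩
  have hRfin : ∀ (S : Finset G) (m : ℕ), ∃ L, ∀ s ∈ S, R s L m := by
    intro S m
    choose l hl using fun g => hEU g m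
    exact ⟨S.sup l, fun s hs => hRm (hl s) (Finset.le_sup hs) le_rfl⟩
  -- products
  have hmul0 : ∀ L m, ∃ L', ∀ x y, R x L (m + 2) → R y L (m + 2) → R (x * y) L' m := by
    intro L m
    obtain ⟨L', hL'⟩ := hRfin (E L * E L) (m + 1)
    refine ⟨L', ?_⟩
    rintro x y ⟨a, ha, hax⟩ ⟨b, hb, hby⟩
    obtain ⟨z, hz, hzab⟩ := hL' (a * b) (Finset.mul_mem_mul ha hb)
    refine ⟨z, hz, ?_⟩
    have h1 : b⁻¹ * (a⁻¹ * x) * (b⁻¹)⁻¹ ∈ U (m + 2) := hUc _ _ _ hax
    have h2 := hUm (m + 1) _ h1 _ hby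
    have h3 := hUm m _ hzab _ h2
    have h4 : z⁻¹ * (a * b) * (b⁻¹ * (a⁻¹ * x) * b⁻¹⁻¹ * (b⁻¹ * y)) = z⁻¹ * (x * y) := by group
    rwa [h4] at h3
  -- inverses
  have hinv0 : ∀ L m, ∃ L', ∀ x, R x L (m + 1) → R x⁻¹ L' m := by
    intro L m
    obtain ⟨L', hL'⟩ := hRfin ((E L).image (fun a => a⁻¹)) (m + 1)
    refine ⟨L', ?_⟩
    rintro x ⟨a, ha, hax⟩
    obtain ⟨z, hz, hza⟩ := hL' a⁻¹ (Finset.mem_image_of_mem _ ha)
    refine ⟨z, hz, ?_⟩
    have h1 : a * (a⁻¹ * x)⁻¹ * a⁻¹ ∈ U (m + 1) := hUc _ _ _ (hUi _ _ hax)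
    have h2 := hUm m _ hza _ h1
    have h3 : z⁻¹ * a⁻¹ * (a * (a⁻¹ * x)⁻¹ * a⁻¹) = z⁻¹ * x⁻¹ := by group
    rwa [h3] at h2
  choose βm hβm using hmul0
  choose βi hβi using hinv0
  -- the promise
  have hprom : ∃ b : ℕ → ℕ, ∀ g N, ∃ n ≥ N, R g (b n) n := by
    choose F hF using fun N => hO (fun n => U (N + n + 1)) (fun n => hU _)
    have h1 : ∀ n, ∃ L, ∀ N ≤ n, ∀ s ∈ F N (n - N), R s L (n + 1) := by
      intro n
      obtain ⟨L, hL⟩ := hRfin ((Finset.range (n + 1)).biUnion (fun N => F N (n - N))) (n + 1)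
      exact ⟨L, fun N hN s hs => hL s (Finset.mem_biUnion.2 ⟨N, Finset.mem_range.2 (by omega), hs⟩)⟩
    choose b hb using h1
    refine ⟨b, fun g N => ?_⟩
    obtain ⟨n, s, hs, u, hu, rfl⟩ := mem_iUnion.1 (hF N (mem_univ g))
    refine ⟨N + n, by omega, ?_⟩
    obtain ⟨z, hz, hzs⟩ := hb (N + n) N (by omega) s (by simpa using hs)
    refine ⟨z, hz, ?_⟩
    have := hUm (N + n) _ hzs _ hu
    simp only
    rwa [mul_assoc] at this
  obtain ⟨b, hb⟩ := hprom
  -- codes of positions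
  choose code hcode using hc
  -- the scale
  let nexth : ℕ → Finset (List ℕ) → ℕ := fun v T =>
    v + 2 + (Finset.range (v + 1)).sup (fun m => βm v m) +
      (Finset.range (v + 1)).sup (fun m => βi v m) + (Finset.range (v + 1)).sup b + T.sup code
  let st : ℕ → ℕ × Finset (List ℕ) := fun n => Nat.rec (0, {[]})
    (fun _ r => (nexth r.1 r.2, r.2 ∪ r.2.image (fun t => K t (E (nexth r.1 r.2)) :: t))) n
  let h : ℕ → ℕ := fun n => (st n).1
  let T : ℕ → Finset (List ℕ) := fun n => (st n).2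
  have hh : ∀ n, h (n + 1) = nexth (h n) (T n) := fun n => rfl
  have hT : ∀ n, T (n + 1) = T n ∪ (T n).image (fun t => K t (E (h (n + 1))) :: t) := fun n => rfl
  have hT0 : T 0 = {[]} := rfl
  have hle : ∀ n, h n + 2 ≤ h (n + 1) := by
    intro n
    rw [hh]
    simp only [nexth]
    omega
  have hhm : StrictMono h := strictMono_nat_of_lt_succ fun n => by
    have := hle n
    omega
  have hβm' : ∀ n, ∀ m ≤ h n, βm (h n) m ≤ h (n + 1) := by
    intro n m hm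
    have : βm (h n) m ≤ (Finset.range (h n + 1)).sup (fun m => βm (h n) m) :=
      Finset.le_sup (f := fun m => βm (h n) m) (Finset.mem_range.2 (by omega))
    rw [hh]
    simp only [nexth]
    omega
  have hβi' : ∀ n, ∀ m ≤ h n, βi (h n) m ≤ h (n + 1) := by
    intro n m hm
    have : βi (h n) m ≤ (Finset.range (h n + 1)).sup (fun m => βi (h n) m) :=
      Finset.le_sup (f := fun m => βi (h n) m) (Finset.mem_range.2 (by omega))
    rw [hh]
    simp only [nexth]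
    omega
  have hb' : ∀ n, ∀ m ≤ h n, b m ≤ h (n + 1) := by
    intro n m hm
    have : b m ≤ (Finset.range (h n + 1)).sup b :=
      Finset.le_sup (f := b) (Finset.mem_range.2 (by omega))
    rw [hh]
    simp only [nexth]
    omega
  have hcode' : ∀ n, ∀ t ∈ T n, code t ≤ h (n + 1) := by
    intro n t ht
    have : code t ≤ (T n).sup code := Finset.le_sup (f := code) ht
    rw [hh]
    simp only [nexth]
    omega
  have hTm : Monotone T := monotone_nat_of_le_succ fun n => by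
    rw [hT]
    exact Finset.subset_union_left
  -- the size function
  have hex : ∀ g k, ∃ j, R g (h j) (h k) := by
    intro g k
    obtain ⟨l, hl⟩ := hEU g (h k)
    exact ⟨l, hRm hl (hhm.id_le l) le_rfl⟩
  let F : G → ℕ → ℕ := fun g k => Nat.find (hex g k)
  have hFs : ∀ g k, R g (h (F g k)) (h k) := fun g k => Nat.find_spec (hex g k)
  have hFle : ∀ {g k j}, R g (h j) (h k) → F g k ≤ j := fun hR => Nat.find_min' _ hR
  refine ⟨F, ⟨?_, ?_, ?_, ?_, ?_⟩⟩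
  · -- monotone
    intro g k k' hkk'
    exact hFle (hRm (hFs g k') le_rfl (hhm.monotone hkk'))
  · -- products
    intro x y k
    set J := max (max (F x (k + 1)) (F y (k + 1))) k with hJ
    have h1 : R x (h J) (h k + 2) := hRm (hFs x (k + 1))
      (hhm.monotone (le_trans (le_max_left _ _) (le_max_left _ _))) (hle k)
    have h2 : R y (h J) (h k + 2) := hRm (hFs y (k + 1))
      (hhm.monotone (le_trans (le_max_right _ _) (le_max_left _ _))) (hle k)
    have h3 := hβm (h J) (h k) x y h1 h2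
    exact hFle (hRm h3 (hβm' J (h k) (hhm.monotone (le_max_right _ _))) le_rfl)
  · -- inverses
    intro x k
    set J := max (F x (k + 1)) k with hJ
    have h1 : R x (h J) (h k + 1) := hRm (hFs x (k + 1))
      (hhm.monotone (le_max_left _ _)) (by have := hle k; omega)
    have h3 := hβi (h J) (h k) x h1
    exact hFle (hRm h3 (hβi' J (h k) (hhm.monotone (le_max_right _ _))) le_rfl)
  · -- smallness
    intro w N
    obtain ⟨n, hn, hRn⟩ := hb w (h N + 1)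
    obtain ⟨k, hkN, hk1, hk2⟩ := exists_between hhm (N := N) (k := n) (by omega)
    refine ⟨k, hkN, hFle (hRm hRn ?_ hk1.le)⟩
    exact hb' (k + 1) n hk2
  · -- beating
    intro a ha
    let t : ℕ → List ℕ := fun n => Nat.rec [] (fun n s => K s (E (h (a (n + 1)))) :: s) n
    have ht0 : t 0 = [] := rfl
    have ht1 : ∀ n, t (n + 1) = K (t n) (E (h (a (n + 1)))) :: t n := fun n => rfl
    have htT : ∀ n, t n ∈ T (a n) := by
      intro n
      induction n with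
      | zero =>
        apply hTm (Nat.zero_le (a 0))
        rw [ht0, hT0]
        exact Finset.mem_singleton_self _
      | succ n ih =>
        have h1 : a n < a (n + 1) := ha (Nat.lt_succ_self n)
        have h2 : a (n + 1) = (a (n + 1) - 1) + 1 := by omega
        have h3 : t n ∈ T (a (n + 1) - 1) := hTm (show a n ≤ a (n + 1) - 1 by omega) ih
        rw [h2, hT, ← h2]
        apply Finset.mem_union_right
        exact Finset.mem_image.2 ⟨t n, h3, (ht1 n).symm⟩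
    obtain ⟨g, hg⟩ := hplay (fun n => E (h (a (n + 1)))) t ht0 ht1
    refine ⟨g, fun n => ?_⟩
    by_contra hcon
    push Not at hcon
    obtain ⟨x, hx, hxg⟩ := hRm (hFs g (a n + 1)) (hhm.monotone hcon) le_rfl
    refine hg n x hx ?_
    have h1 : code (t n) ≤ h (a n + 1) := hcode' (a n) _ (htT n)
    have h2 := hUs (code (t n)) (hUanti _ _ h1 hxg)
    simp only [hcode] at h2
    exact h2

end Pool.Agent.MP_b00c97_gt.Ind
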