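import Mathlib

/-!
# MP_b00c97_gt: the combinatorial core of the negative half

A group with a *scale* (a measure of size of its elements which behaves well under products and
inverses, for which every element is small infinitely often and for which every infinite set of
natural numbers is beaten by some element) cannot exist when `non(SN) < h`.
-/

set_option autoImplicit false

open Set

namespace Pool.Agent.MP_b00c97_gt.Ind

universe u

/-- A family `D` of infinite sets of natural numbers is open dense: it is closed under infinite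
almost-subsets, and every infinite set contains a member. -/
structure OpenDense (D : Set (Set ℕ)) : Prop where
  infinite : ∀ A ∈ D, A.Infinite
  isOpen : ∀ A ∈ D, ∀ B : Set ℕ, B.Infinite → (B \ A).Finite → B ∈ D
  dense : ∀ A : Set ℕ, A.Infinite → ∃ B ∈ D, B ⊆ A

/-- A set of infinite binary sequences has strong measure zero. -/
def StrongMeasureZero (X : Set (ℕ → Bool)) : Prop :=
  ∀ f : ℕ → ℕ, ∃ y : ℕ → ℕ → Bool, ∀ x ∈ X, ∃ m, ∀ i < f m, x i = y m i

/-- A scale on a group. -/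
structure Scale (G : Type u) [Group G] (F : G → ℕ → ℕ) : Prop where
  mono : ∀ g, Monotone (F g)
  mul : ∀ x y k, F (x * y) k ≤ max (max (F x (k + 1)) (F y (k + 1))) k + 1
  inv : ∀ x k, F x⁻¹ k ≤ max (F x (k + 1)) k + 1
  small : ∀ w N, ∃ k ≥ N, F w k ≤ k + 2
  beat : ∀ a : ℕ → ℕ, StrictMono a → ∃ g, ∀ n, a (n + 1) < F g (a n + 1)

/-- The decoding of numbers into binary sequences. -/
noncomputable def str (u : ℕ) (i : ℕ) : Bool :=
  decide (i ∈ (Encodable.decode (α := Finset ℕ) u.unpair.1).getD ∅)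

theorem exists_str (x : ℕ → Bool) (L N : ℕ) : ∃ u ≥ N, ∀ i < L, str u i = x i := by
  refine ⟨Nat.pair (Encodable.encode ((Finset.range L).filter (fun i => x i = true))) N,
    Nat.right_le_pair _ _, fun i hi => ?_⟩
  rw [str, Nat.unpair_pair, Encodable.encodek]
  simp only [Option.getD_some, Finset.mem_filter, Finset.mem_range]
  cases h : x i <;> simp [hi]

variable {G : Type u} [Group G] {F : G → ℕ → ℕ}

open Classical in
/-- The element `g` codes `x` along `Y`. -/
def GoodFor (F : G → ℕ → ℕ) (f : ℕ → ℕ) (x : ℕ → Bool) (g : G) (Y : Set ℕ) : Prop :=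
  ∀ j ∈ Y, ∃ p q : ℕ, 1 ≤ p ∧ 4 ∣ p ∧ p + 10 < j ∧ j + 10 < q ∧ F g (p - 1) ≤ p + 2 ∧
    q < F g (p + 1) ∧ (∀ i ∈ Y, i < j → i + 10 < p) ∧
    ∀ i < f (2 * Nat.count (· ∈ Y) j), str (p / 4) i = x i

/-- The open dense family attached to `x`. -/
def Fam (F : G → ℕ → ℕ) (f : ℕ → ℕ) (x : ℕ → Bool) : Set (Set ℕ) :=
  {Z | Z.Infinite ∧ ∃ g Y, GoodFor F f x g Y ∧ (Z \ Y).Finite}

/-- Locating a number in a strictly increasing sequence. -/
theorem exists_between {p : ℕ → ℕ} (hp : StrictMono p) {N k : ℕ} (h : p N < k) :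
    ∃ t ≥ N, p t < k ∧ k ≤ p (t + 1) := by
  classical
  have hex : ∃ t, k ≤ p t := ⟨k, hp.id_le k⟩
  have hfind := Nat.find_spec hex
  have h1 : N < Nat.find hex := by
    by_contra hcon
    have := hp.monotone (not_lt.1 hcon)
    omega
  have h2 : ¬ k ≤ p (Nat.find hex - 1) := Nat.find_min hex (by omega)
  refine ⟨Nat.find hex - 1, by omega, by omega, ?_⟩
  have h3 : Nat.find hex - 1 + 1 = Nat.find hex := by omega
  rw [h3]
  exact hfind

theorem exists_good (hF : Scale G F) {f : ℕ → ℕ} (hf : Monotone f) (x : ℕ → Bool)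
    {Z : Set ℕ} (hZ : Z.Infinite) :
    ∃ g Y, GoodFor F f x g Y ∧ Y ⊆ Z ∧ Y.Infinite := by
  classical
  -- one step of the construction
  have hstep : ∀ t y : ℕ, ∃ r : ℕ × ℕ, 4 ∣ r.1 ∧ 1 ≤ r.1 ∧ y + 10 < r.1 ∧ r.1 + 10 < r.2 ∧
      r.2 ∈ Z ∧ ∀ i < f (2 * t), str (r.1 / 4) i = x i := by
    intro t y
    obtain ⟨u, hu, hux⟩ := exists_str x (f (2 * t)) (y + 11)
    obtain ⟨z, hz, hzu⟩ := hZ.exists_gt (4 * u + 10)
    refine ⟨(4 * u, z), ⟨u, rfl⟩, by omega, by omega, hzu, hz, fun i hi => ?_⟩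
    show str (4 * u / 4) i = x i
    rw [Nat.mul_div_cancel_left _ (by norm_num)]
    exact hux i hi
  choose R hR using hstep
  let s : ℕ → ℕ × ℕ := fun t => Nat.rec (R 0 0) (fun t r => R (t + 1) r.2) t
  have hs0 : s 0 = R 0 0 := rfl
  have hs : ∀ t, s (t + 1) = R (t + 1) (s t).2 := fun t => rfl
  let p : ℕ → ℕ := fun t => (s t).1
  let y : ℕ → ℕ := fun t => (s t).2
  have h4 : ∀ t, 4 ∣ p t ∧ 1 ≤ p t ∧ p t + 10 < y t ∧ y t ∈ Z ∧
      ∀ i < f (2 * t), str (p t / 4) i = x i := by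
    intro t
    cases t with
    | zero =>
      obtain ⟨h1, h2, -, h3, h5, h6⟩ := hR 0 0
      exact ⟨h1, h2, h3, h5, h6⟩
    | succ t =>
      obtain ⟨h1, h2, -, h3, h5, h6⟩ := hR (t + 1) (s t).2
      exact ⟨h1, h2, h3, h5, h6⟩
  have hpy : ∀ t, y t + 10 < p (t + 1) := fun t => (hR (t + 1) (s t).2).2.2.1
  have hp : StrictMono p := strictMono_nat_of_lt_succ fun t => by
    have := (h4 t).2.2.1
    have := hpy t
    omega
  have hy : StrictMono y := strictMono_nat_of_lt_succ fun t => by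
    have := (h4 (t + 1)).2.2.1
    have := hpy t
    omega
  obtain ⟨g, hg⟩ := hF.beat p hp
  -- infinitely many precise places
  have hprec : ∀ N, ∃ t ≥ N, F g (p t - 1) ≤ p t + 2 := by
    intro N
    obtain ⟨k, hk, hkk⟩ := hF.small g (p N + 1)
    obtain ⟨t', htN, hlt, hfind⟩ := exists_between hp (N := N) (k := k) (by omega)
    have h1 : F g (p t' + 1) ≤ F g k := hF.mono g (by omega)
    have h2 := hg t'
    refine ⟨t' + 1, by omega, ?_⟩
    have h3 : F g (p (t' + 1) - 1) ≤ F g k := hF.mono g (by omega)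
    omega
  let T : Set ℕ := {t | F g (p t - 1) ≤ p t + 2}
  have hT : T.Infinite := by
    rw [Set.infinite_iff_exists_gt]
    intro N
    obtain ⟨t, ht, htt⟩ := hprec (N + 1)
    exact ⟨t, htt, by omega⟩
  refine ⟨g, y '' T, ?_, ?_, hT.image hy.injective.injOn⟩
  · rintro _ ⟨t, ht, rfl⟩
    obtain ⟨h1, h2, h3, h5, h6⟩ := h4 t
    refine ⟨p t, p (t + 1), h2, h1, h3, hpy t, ht, hg t, ?_, ?_⟩
    · rintro _ ⟨t', ht', rfl⟩ hlt
      have htt' : t' < t := hy.lt_iff_lt.1 hlt
      have h7 := hpy t'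
      have h8 : p (t' + 1) ≤ p t := hp.monotone htt'
      omega
    · intro i hi
      apply h6 i
      refine lt_of_lt_of_le hi (hf ?_)
      have : Nat.count (· ∈ y '' T) (y t) ≤ t := by
        rw [Nat.count_eq_card_filter_range]
        calc _ ≤ ((Finset.range t).image y).card := by
              apply Finset.card_le_card
              intro j hj
              rw [Finset.mem_filter, Finset.mem_range] at hj
              obtain ⟨hj1, t', -, rfl⟩ := hj
              exact Finset.mem_image.2 ⟨t', Finset.mem_range.2 (hy.lt_iff_lt.1 hj1), rfl⟩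
          _ ≤ _ := Finset.card_image_le.trans (by simp)
      omega
  · rintro _ ⟨t, -, rfl⟩
    exact (h4 t).2.2.2.1

theorem openDense_fam (hF : Scale G F) {f : ℕ → ℕ} (hf : Monotone f) (x : ℕ → Bool) :
    OpenDense (Fam F f x) := by
  refine ⟨fun A hA => hA.1, ?_, ?_⟩
  · rintro A ⟨-, g, Y, hg, hAY⟩ B hB hBA
    refine ⟨hB, g, Y, hg, (hBA.union hAY).subset ?_⟩
    intro i hi
    by_cases hiA : i ∈ A
    · exact Or.inr ⟨hiA, hi.2⟩
    · exact Or.inl ⟨hi.1, hiA⟩
  · intro A hA
    obtain ⟨g, Y, hg, hYA, hY⟩ := exists_good hF hf x hA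
    exact ⟨Y, ⟨hY, g, Y, hg, by simp⟩, hYA⟩

/-- The main guessing argument. -/
theorem guess (hF : Scale G F) {f : ℕ → ℕ} (hf : Monotone f) {B : Set ℕ} (hB : B.Infinite) :
    ∃ y : ℕ → ℕ → Bool, ∀ x : ℕ → Bool, B ∈ Fam F f x → ∃ m, ∀ i < f m, x i = y m i := by
  classical
  let b : ℕ → ℕ := Nat.nth (· ∈ B)
  have hbm : StrictMono b := Nat.nth_strictMono hB
  have hbB : ∀ n, b n ∈ B := fun n => Nat.nth_mem_of_infinite hB n
  obtain ⟨g', hg'⟩ := hF.beat b hbm
  have hunb : ∀ n, ∃ t, n < F g' t := by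
    intro n
    refine ⟨b n + 1, ?_⟩
    have h1 := hg' n
    have h2 := hbm.id_le (n + 1)
    simp only [id] at h2
    omega
  let star : ℕ → ℕ := fun n => Nat.find (hunb (b n + 6))
  refine ⟨fun n => str ((star n + 1) / 4), fun x hx => ?_⟩
  obtain ⟨-, g, Y, hg, hBY⟩ := hx
  -- everything is in `Y` from some point on
  obtain ⟨N₀, hN₀⟩ : ∃ N₀, ∀ i ∈ B, N₀ ≤ i → i ∈ Y := by
    obtain ⟨M, hM⟩ := hBY.bddAbove
    refine ⟨M + 1, fun i hi hiM => ?_⟩
    by_contra h
    have := hM (show i ∈ B \ Y from ⟨hi, h⟩)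
    omega
  have hcount : ∀ j, Nat.count (· ∈ B) j ≤ Nat.count (· ∈ Y) j + hBY.toFinset.card := by
    intro j
    rw [Nat.count_eq_card_filter_range, Nat.count_eq_card_filter_range]
    calc _ ≤ ((Finset.range j).filter (· ∈ Y) ∪ hBY.toFinset).card := by
          apply Finset.card_le_card
          intro i hi
          rw [Finset.mem_filter] at hi
          rw [Finset.mem_union, Finset.mem_filter, Set.Finite.mem_toFinset]
          by_cases hiY : i ∈ Y
          · exact Or.inl ⟨hi.1, hiY⟩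
          · exact Or.inr ⟨hi.2, hiY⟩
      _ ≤ _ := Finset.card_union_le _ _
  set c := hBY.toFinset.card with hc
  set w := g⁻¹ * g' with hw
  obtain ⟨k, hk, hkk⟩ := hF.small w (b (N₀ + 2 * c) + 3)
  -- locate `k`
  obtain ⟨n, hn'N, hlow, hfind⟩ := exists_between hbm (N := N₀ + 2 * c) (k := k - 2) (by omega)
  set i := b n with hi
  set j := b (n + 1) with hj
  have hij : i < j := hbm (Nat.lt_succ_self n)
  have hiY : i ∈ Y := hN₀ i (hbB n) (by have := hbm.id_le n; simp only [id] at this; omega)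
  have hjY : j ∈ Y := hN₀ j (hbB (n + 1)) (by
    have := hbm.id_le (n + 1); simp only [id] at this; omega)
  obtain ⟨p, q, hp1, hp4, hpj, hjq, hprec, hq, hprev, hcode⟩ := hg j hjY
  have hip := hprev i hiY hij
  have hgij : j < F g' (i + 1) := hg' n
  -- the two inequalities
  have hup : ∀ t, F g' t ≤ max (max (F g (t + 1)) (F w (t + 1))) t + 1 := by
    intro t
    have := hF.mul g w t
    rwa [hw, mul_inv_cancel_left] at this
  have hdown : ∀ t, F g t ≤ max (max (F g' (t + 1)) (max (F w (t + 2)) (t + 1) + 1)) t + 1 := by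
    intro t
    have h1 := hF.mul g' w⁻¹ t
    have h2 := hF.inv w (t + 1)
    have h3 : g' * w⁻¹ = g := by rw [hw]; group
    rw [h3] at h1
    refine h1.trans ?_
    have : max (max (F g' (t + 1)) (F w⁻¹ (t + 1))) t ≤
        max (max (F g' (t + 1)) (max (F w (t + 2)) (t + 1) + 1)) t :=
      max_le_max (max_le_max le_rfl h2) le_rfl
    omega
  have hwm := hF.mono w
  -- `k` is close to `j`
  have hkj : j ≤ k + 3 := by
    by_contra hcon
    push Not at hcon
    have h1 := hup (k - 1)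
    have h2 : F g' (i + 1) ≤ F g' (k - 1) := hF.mono g' (by omega)
    have hk1 : k - 1 + 1 = k := by omega
    rw [hk1] at h1
    have h3 : j ≤ F g k := by
      omega
    have h4 : p - 1 < k := by
      by_contra h
      have := hF.mono g (not_lt.1 h)
      omega
    have h5 := hup (p - 2)
    have hp2 : p - 2 + 1 = p - 1 := by omega
    rw [hp2] at h5
    have h6 : F w (p - 1) ≤ F w k := hwm (by omega)
    have h7 : F g' (i + 1) ≤ F g' (p - 2) := hF.mono g' (by omega)
    omega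
  -- upper estimate below `p`
  have h1 : F g' (p - 2) ≤ j + 6 := by
    have h5 := hup (p - 2)
    have hp2 : p - 2 + 1 = p - 1 := by omega
    rw [hp2] at h5
    have h6 : F w (p - 1) ≤ F w k := hwm (by omega)
    omega
  -- lower estimate above `p`
  have h2 : j + 6 < F g' (p + 2) := by
    have h5 := hdown (p + 1)
    have h6 : F w (p + 1 + 2) ≤ F w k := hwm (by omega)
    have hp2 : p + 1 + 1 = p + 2 := by omega
    rw [hp2] at h5
    omega
  have hs1 : p - 2 < star (n + 1) := by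
    by_contra h
    have h3 := hF.mono g' (not_lt.1 h)
    have h4 : b (n + 1) + 6 < F g' (star (n + 1)) := Nat.find_spec (hunb (b (n + 1) + 6))
    omega
  have hs2 : star (n + 1) ≤ p + 2 := Nat.find_min' (hunb (b (n + 1) + 6)) h2
  have hs3 : (star (n + 1) + 1) / 4 = p / 4 := by omega
  refine ⟨n + 1, fun l hl => ?_⟩
  show x l = str ((star (n + 1) + 1) / 4) l
  rw [hs3]
  refine (hcode l (lt_of_lt_of_le hl (hf ?_))).symm
  have h3 := hcount j
  have h4 : Nat.count (· ∈ B) j = n + 1 := Nat.count_nth_of_infinite (p := (· ∈ B)) hB (n + 1)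
  omega

/-- A group with a scale is incompatible with `non(SN) < h`. -/
theorem not_scale {X : Set (ℕ → Bool)} (hX : ¬ StrongMeasureZero X)
    (hh : ∀ 𝒟 : X → Set (Set ℕ), (∀ x, OpenDense (𝒟 x)) → ∃ B, ∀ x, B ∈ 𝒟 x) :
    ¬ Scale G F := by
  intro hF
  apply hX
  intro f₀
  -- a monotone majorant
  let f : ℕ → ℕ := fun m => (Finset.range (m + 1)).sup f₀
  have hf : Monotone f := fun a b hab => Finset.sup_mono (by simpa using hab)
  have hf₀ : ∀ m, f₀ m ≤ f m := fun m => Finset.le_sup (by simp)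
  rcases X.eq_empty_or_nonempty with hemp | ⟨x₀, hx₀⟩
  · exact ⟨fun _ _ => true, fun x hx => by rw [hemp] at hx; exact absurd hx (notMem_empty x)⟩
  obtain ⟨B, hB⟩ := hh (fun x => Fam F f x) (fun x => openDense_fam hF hf x)
  obtain ⟨y, hy⟩ := guess hF hf (hB ⟨x₀, hx₀⟩).1
  refine ⟨y, fun x hx => ?_⟩
  obtain ⟨m, hm⟩ := hy x (hB ⟨x, hx⟩)
  exact ⟨m, fun i hi => hm i (lt_of_lt_of_le hi (hf₀ m))⟩

end Pool.Agent.MP_b00c97_gt.Ind
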